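import Pool.Agent.PCL.Stmts

/-!
# Squad PCL (MP_1fc801_co), row QFB: the fibres of the sum map on two sparse lattices
-/

set_option autoImplicit false

namespace Pool.Agent.PCL.H36

variable {ι : Type} [Fintype ι] [DecidableEq ι]

/-- the pairs of `L × M` whose sum vanishes outside `J` -/
def Lam (L M : Submodule ℤ (ι → ℤ)) (J : Finset ι) : Submodule ℤ ((ι → ℤ) × (ι → ℤ)) where
  carrier := {p | p.1 ∈ L ∧ p.2 ∈ M ∧ ∀ i, i ∉ J → p.1 i + p.2 i = 0}
  zero_mem' := ⟨L.zero_mem, M.zero_mem, fun i _ => by simp⟩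
  add_mem' := by
    rintro p q ⟨hp1, hp2, hp3⟩ ⟨hq1, hq2, hq3⟩
    refine ⟨L.add_mem hp1 hq1, M.add_mem hp2 hq2, fun i hi => ?_⟩
    have h1 := hp3 i hi
    have h2 := hq3 i hi
    simp only [Prod.fst_add, Prod.snd_add, Pi.add_apply]
    linarith
  smul_mem' := by
    rintro c p ⟨hp1, hp2, hp3⟩
    refine ⟨L.smul_mem c hp1, M.smul_mem c hp2, fun i hi => ?_⟩
    have h1 := hp3 i hi
    simp only [Prod.smul_fst, Prod.smul_snd, Pi.smul_apply, smul_eq_mul]
    rw [← mul_add, h1, mul_zero]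

/-- the sum, restricted to `J'` -/
def resm (L M : Submodule ℤ (ι → ℤ)) (J J' : Finset ι) : Lam L M J →ₗ[ℤ] (J' → ℤ) where
  toFun p := fun j => p.1.1 j + p.1.2 j
  map_add' p q := by
    funext j
    simp only [Submodule.coe_add, Prod.fst_add, Prod.snd_add, Pi.add_apply]
    ring
  map_smul' c p := by
    funext j
    simp only [Submodule.coe_smul, Prod.smul_fst, Prod.smul_snd, Pi.smul_apply, smul_eq_mul,
      RingHom.id_apply]
    ring

theorem rank_le (L M : Submodule ℤ (ι → ℤ)) (J J' : Finset ι)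
    (hinj : ∀ x ∈ L, ∀ y ∈ M, (∀ i, i ∉ J → x i + y i = 0) → (∀ i ∈ J', x i + y i = 0) →
      x = 0 ∧ y = 0) : Module.finrank ℤ (Lam L M J) ≤ J'.card := by
  have h1 : Function.Injective (resm L M J J') := by
    rw [← LinearMap.ker_eq_bot, LinearMap.ker_eq_bot']
    rintro ⟨p, hp1, hp2, hp3⟩ h
    have h2 : ∀ i ∈ J', p.1 i + p.2 i = 0 := fun i hi => congrFun h ⟨i, hi⟩
    obtain ⟨h3, h4⟩ := hinj p.1 hp1 p.2 hp2 hp3 h2
    apply Subtype.ext
    exact Prod.ext h3 h4
  have h2 := LinearMap.finrank_le_finrank_of_injective h1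
  rw [Module.finrank_fintype_fun_eq_card, Fintype.card_coe] at h2
  exact h2

theorem core (hMD : MdqStmt) (N : ι → ℕ) (L M : Submodule ℤ (ι → ℤ)) (ε R : ℝ)
    (J J' : Finset ι) (S : Finset ((ι → ℤ) × (ι → ℤ)))
    (hε : 0 < ε) (hεR : ε ≤ R)
    (hL : ∀ x ∈ L, InB N ε x → x = 0) (hM : ∀ x ∈ M, InB N ε x → x = 0)
    (hS : ∀ p ∈ S, p.1 ∈ L ∧ p.2 ∈ M ∧ InB N R p.1 ∧ InB N R p.2)
    (hJ : ∀ p ∈ S, ∀ p' ∈ S, ∀ i, i ∉ J → p.1 i + p.2 i = p'.1 i + p'.2 i)
    (hinj : ∀ x ∈ L, ∀ y ∈ M, (∀ i, i ∉ J → x i + y i = 0) → (∀ i ∈ J', x i + y i = 0) →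
      x = 0 ∧ y = 0) :
    (S.card : ℝ) ≤ (3 * R / ε) ^ J'.card := by
  classical
  have hR : 0 < R := hε.trans_le hεR
  rcases S.eq_empty_or_nonempty with rfl | ⟨s0, hs0⟩
  · simp only [Finset.card_empty, Nat.cast_zero]
    positivity
  have hq1 : 1 ≤ R / ε := (one_le_div hε).2 hεR
  obtain ⟨q, hq⟩ : ∃ q : ℕ, q = ⌈2 * R / ε⌉₊ := ⟨_, rfl⟩
  have hqge : 2 * R / ε ≤ q := by rw [hq]; exact Nat.le_ceil _
  have hqle : (q : ℝ) ≤ 3 * R / ε := by
    have h1 : (q : ℝ) < 2 * R / ε + 1 := by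
      rw [hq]
      exact Nat.ceil_lt_add_one (by positivity)
    have h2 : 2 * R / ε + 1 ≤ 3 * R / ε := by
      have : 3 * R / ε = 2 * R / ε + R / ε := by ring
      linarith
    linarith
  have hqpos : (0 : ℝ) < q := lt_of_lt_of_le (by positivity) hqge
  have hq0 : 0 < q := by exact_mod_cast hqpos
  have hmem : ∀ p ∈ S, p - s0 ∈ Lam L M J := by
    intro p hp
    obtain ⟨a1, a2, -, -⟩ := hS p hp
    obtain ⟨b1, b2, -, -⟩ := hS s0 hs0
    refine ⟨L.sub_mem a1 b1, M.sub_mem a2 b2, fun i hi => ?_⟩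
    have h1 := hJ p hp s0 hs0 i hi
    simp only [Prod.fst_sub, Prod.snd_sub, Pi.sub_apply]
    linarith
  let f : {p // p ∈ S} → Lam L M J := fun p => ⟨p.1 - s0, hmem p.1 p.2⟩
  have hf : Function.Injective f := by
    intro p p' h
    have h1 : p.1 - s0 = p'.1 - s0 := congrArg Subtype.val h
    exact Subtype.ext (sub_left_injective h1)
  let T : Finset (Lam L M J) := Finset.univ.image f
  have hT : T.card = S.card := by
    rw [Finset.card_image_of_injective _ hf, Finset.card_univ, Fintype.card_coe]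
  have hsmall : ∀ (a b z : ι → ℤ), InB N R a → InB N R b → (∀ i, a i - b i = q * z i) →
      InB N ε z := by
    intro a b z ha hb h i
    have h1 := ha i
    have h2 := hb i
    have h3 : ((a i : ℝ) - b i) = q * z i := by exact_mod_cast h i
    have h4 : |(q : ℝ) * z i| ≤ 2 * (R * N i) := by
      rw [← h3]
      exact (abs_sub _ _).trans (by linarith)
    rw [abs_mul, abs_of_pos hqpos] at h4
    have h5 : 2 * R / ε * |(z i : ℝ)| ≤ q * |(z i : ℝ)| :=
      mul_le_mul_of_nonneg_right hqge (abs_nonneg _)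
    have h6 : 2 * R / ε * |(z i : ℝ)| ≤ 2 * (R * N i) := h5.trans h4
    have h7 : 2 * R / ε * |(z i : ℝ)| = (2 * R) * (|(z i : ℝ)| / ε) := by ring
    rw [h7, show 2 * (R * (N i : ℝ)) = (2 * R) * N i by ring] at h6
    have h8 : |(z i : ℝ)| / ε ≤ N i := le_of_mul_le_mul_left h6 (by positivity)
    rw [div_le_iff₀ hε] at h8
    linarith
  have hmain : T.card ≤ q ^ Module.finrank ℤ (Lam L M J) := by
    refine hMD (Lam L M J) q T hq0 ?_
    intro x hx y hy z hz
    obtain ⟨p, -, rfl⟩ := Finset.mem_image.1 hx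
    obtain ⟨p', -, rfl⟩ := Finset.mem_image.1 hy
    have h1 : (p.1 - s0) - (p'.1 - s0) = (q : ℤ) • (z : (ι → ℤ) × (ι → ℤ)) :=
      congrArg Subtype.val hz
    have h2 : p.1 - p'.1 = (q : ℤ) • (z : (ι → ℤ) × (ι → ℤ)) := by
      rw [← h1]; abel
    obtain ⟨-, -, c1, c2⟩ := hS p.1 p.2
    obtain ⟨-, -, d1, d2⟩ := hS p'.1 p'.2
    have e1 : z.1.1 = 0 := by
      refine hL _ z.2.1 (hsmall p.1.1 p'.1.1 _ c1 d1 fun i => ?_)
      have := congrFun (congrArg Prod.fst h2) i
      simpa using this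
    have e2 : z.1.2 = 0 := by
      refine hM _ z.2.2.1 (hsmall p.1.2 p'.1.2 _ c2 d2 fun i => ?_)
      have := congrFun (congrArg Prod.snd h2) i
      simpa using this
    have e3 : (z : (ι → ℤ) × (ι → ℤ)) = 0 := Prod.ext e1 e2
    rw [e3, smul_zero] at h2
    have e4 : p.1 = p'.1 := sub_eq_zero.1 h2
    rw [Subtype.ext e4]
  have hr := rank_le L M J J' hinj
  have h1 : (S.card : ℝ) ≤ (q : ℝ) ^ J'.card := by
    rw [← hT]
    have h2 : T.card ≤ q ^ J'.card := hmain.trans (Nat.pow_le_pow_right hq0 hr)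
    exact_mod_cast h2
  exact h1.trans (pow_le_pow_left₀ hqpos.le hqle _)

theorem qfb (hMD : MdqStmt) : QfbStmt := by
  intro ι _ _ N L M ε R J S hN hLM hε hεR hR hL hM hS hJ
  have key : ∀ x ∈ L, ∀ y ∈ M, (∀ i, x i + y i = 0) → x = 0 ∧ y = 0 := by
    intro x hx y hy h
    have h1 : x = -y := by
      funext i
      have := h i
      simp only [Pi.neg_apply]
      linarith
    have h2 : x ∈ M := by rw [h1]; exact M.neg_mem hy
    have h3 : x = 0 := Submodule.disjoint_def.1 hLM x hx h2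
    refine ⟨h3, ?_⟩
    rw [h3] at h1
    exact neg_eq_zero.1 h1.symm
  refine ⟨core hMD N L M ε R J J S hε hεR hL hM hS hJ ?_, ?_⟩
  · intro x hx y hy h1 h2
    refine key x hx y hy fun i => ?_
    by_cases hi : i ∈ J
    · exact h2 i hi
    · exact h1 i hi
  · rintro c ⟨i0, hi0, hc0⟩ hcL hcM
    have h1 := core hMD N L M ε R J (J.erase i0) S hε hεR hL hM hS hJ (by
      intro x hx y hy h1 h2
      refine key x hx y hy fun i => ?_
      have h3 : ∀ i, i ≠ i0 → x i + y i = 0 := by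
        intro i hi
        by_cases hiJ : i ∈ J
        · exact h2 i (Finset.mem_erase.2 ⟨hi, hiJ⟩)
        · exact h1 i hiJ
      by_cases hi : i = i0
      · subst hi
        have h4 : ∑ j, c j * (x j + y j) = 0 := by
          have h5 := hcL x hx
          have h6 := hcM y hy
          simp only [mul_add, Finset.sum_add_distrib]
          rw [h5, h6, add_zero]
        rw [Finset.sum_eq_single i (fun j _ hj => by rw [h3 j hj, mul_zero])
          (fun h => absurd (Finset.mem_univ i) h)] at h4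
        exact (mul_eq_zero.1 h4).resolve_left hc0
      · exact h3 i hi)
    refine h1.trans ?_
    have h2 : J.card = (J.erase i0).card + 1 := by
      rw [Finset.card_erase_of_mem hi0]
      have := Finset.card_pos.2 ⟨i0, hi0⟩
      omega
    rw [h2, pow_succ]
    have hR0 : 0 < R := by linarith
    have h3 : 0 ≤ (3 * R / ε) ^ (J.erase i0).card := by positivity
    have h4 : ε * ((3 * R / ε) ^ (J.erase i0).card * (3 * R / ε)) =
        (3 * R / ε) ^ (J.erase i0).card * (3 * R) := by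
      field_simp
    rw [h4]
    nlinarith

end Pool.Agent.PCL.H36
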